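import Pool.Agent.helper47.SPI.Spec

/-!
# spi:MOB (MP_f6e9a2_nt): Moebius images
-/

set_option autoImplicit false

namespace Pool.Agent.SPI

open Finset Pool.Agent.helper85.PG
open scoped Pointwise

theorem MOB_phase (S : ℂ) : ∃ u : ℂ, ‖u‖ ≤ 1 ∧ u * S = (‖S‖ : ℂ) := by
  by_cases h : S = 0
  · refine ⟨0, by simp, ?_⟩
    rw [h]
    simp
  · have hn : (‖S‖ : ℂ) ≠ 0 := by
      rw [Ne, Complex.ofReal_eq_zero, norm_eq_zero]
      exact h
    refine ⟨(‖S‖ : ℂ) / S, ?_, ?_⟩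
    · rw [norm_div, Complex.norm_real, norm_norm, div_self (norm_ne_zero_iff.2 h)]
    · rw [div_mul_cancel₀ _ h]

theorem MOB_id {p : ℕ} [Fact p.Prime] (χ : MulChar (ZMod p) ℂ) (a b c d x y : ZMod p)
    (hx : c * x + d ≠ 0) (hy : c * y + d ≠ 0) :
    χ ((a * x + b) / (c * x + d) - (a * y + b) / (c * y + d)) =
      χ (a * d - b * c) * (χ⁻¹ (c * x + d) * χ⁻¹ (c * y + d) * χ (x - y)) := by
  have e : (a * x + b) / (c * x + d) - (a * y + b) / (c * y + d) =
      (a * d - b * c) * (x - y) * ((c * x + d)⁻¹ * (c * y + d)⁻¹) := by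
    rw [div_sub_div _ _ hx hy, div_eq_mul_inv, mul_inv]
    ring
  rw [e, map_mul, map_mul, map_mul, MulChar.inv_apply', MulChar.inv_apply']
  ring

theorem MOB (hFIN : FIN_stmt) : MOB_stmt := by
  intro K η hη
  obtain ⟨δ, p₀, hδ, hF⟩ := hFIN K η hη
  refine ⟨δ, p₀, hδ, ?_⟩
  intro p _ hp H₁ H₂ A B a b c d hdet k1 k2 k3 k4 hA hB χ hχ β hβ
  -- phases
  choose α hα1 hα2 using fun z : ZMod p => MOB_phase (∑ w ∈ B, β w * χ (z + w))
  choose! f hf1 hf2 hf3 using hA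
  choose! g hg1 hg2 hg3 using hB
  have hfi : Set.InjOn f (A : Set (ZMod p)) := by
    intro z hz z' hz' h
    rw [hf3 z hz, hf3 z' hz', h]
  have hgi : Set.InjOn (fun w => -g w) (B : Set (ZMod p)) := by
    intro w hw w' hw' h
    have h1 : g w = g w' := neg_injective h
    apply neg_injective
    rw [hg3 w hw, hg3 w' hw', h1]
  -- the sets
  have hA' : A.image f ⊆ H₁ := by
    intro x hx
    obtain ⟨z, hz, rfl⟩ := mem_image.1 hx
    exact hf1 z hz
  have hB' : B.image (fun w => -g w) ⊆ -H₂ := by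
    intro y hy
    obtain ⟨w, hw, rfl⟩ := mem_image.1 hy
    exact Finset.neg_mem_neg (hg1 w hw)
  have hAc : (A.image f).card = A.card := card_image_of_injOn hfi
  have hBc : (B.image (fun w => -g w)).card = B.card := card_image_of_injOn hgi
  have hH2 : (((-H₂) + (-H₂)).card : ℝ) ≤ K * ((-H₂).card : ℝ) := by
    rw [← neg_add, Finset.card_neg, Finset.card_neg]
    exact k2
  have hH2' : ((-H₂).card : ℝ) ≤ (p : ℝ) ^ (1 - η) := by
    rw [Finset.card_neg]
    exact k4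
  have hχ1 : ∀ x : ZMod p, ‖χ⁻¹ x‖ ≤ 1 := fun x => DirichletCharacter.norm_le_one χ⁻¹ x
  have main := hF p hp H₁ (-H₂) (A.image f) (B.image fun w => -g w) k1 hH2 k3 hH2' hA' hB' χ hχ
    (fun x => α ((a * x + b) / (c * x + d)) * χ⁻¹ (c * x + d))
    (fun y => β (-((a * (-y) + b) / (c * (-y) + d))) * χ⁻¹ (c * (-y) + d))
    (fun x => by
      rw [norm_mul]
      exact mul_le_one₀ (hα1 _) (norm_nonneg _) (hχ1 _))
    (fun y => by
      rw [norm_mul]
      exact mul_le_one₀ (hβ _) (norm_nonneg _) (hχ1 _))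
  rw [hAc, hBc] at main
  -- the sum
  have e1 : ((∑ z ∈ A, ‖∑ w ∈ B, β w * χ (z + w)‖ : ℝ) : ℂ) = χ (a * d - b * c) *
      ∑ x ∈ A.image f, ∑ y ∈ B.image (fun w => -g w),
        (fun x => α ((a * x + b) / (c * x + d)) * χ⁻¹ (c * x + d)) x *
        (fun y => β (-((a * (-y) + b) / (c * (-y) + d))) * χ⁻¹ (c * (-y) + d)) y * χ (x + y) := by
    rw [sum_image hfi, Complex.ofReal_sum, mul_sum]
    refine sum_congr rfl fun z hz => ?_
    rw [sum_image hgi, ← hα2 z, mul_sum, mul_sum]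
    refine sum_congr rfl fun w hw => ?_
    have hz' := hf3 z hz
    have hw' := hg3 w hw
    have e2 : z + w = (a * f z + b) / (c * f z + d) - (a * g w + b) / (c * g w + d) := by
      rw [← hz', ← hw']
      ring
    have e3 : χ (z + w) = χ (a * d - b * c) *
        (χ⁻¹ (c * f z + d) * χ⁻¹ (c * g w + d) * χ (f z - g w)) := by
      rw [e2]
      exact MOB_id χ a b c d _ _ (hf2 z hz) (hg2 w hw)
    simp only [neg_neg]
    rw [← hz', ← hw', neg_neg, e3, ← sub_eq_add_neg]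
    ring
  have e4 : (∑ z ∈ A, ‖∑ w ∈ B, β w * χ (z + w)‖ : ℝ) =
      ‖((∑ z ∈ A, ‖∑ w ∈ B, β w * χ (z + w)‖ : ℝ) : ℂ)‖ := by
    rw [Complex.norm_real, Real.norm_of_nonneg (sum_nonneg fun _ _ => norm_nonneg _)]
  rw [e4, e1, norm_mul]
  refine le_trans ?_ main
  exact mul_le_of_le_one_left (norm_nonneg _) (DirichletCharacter.norm_le_one χ _)

end Pool.Agent.SPI
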